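import Pool.Agent.Helper92.BW.Real
import Pool.Agent.Helper92.FR.GoalsB

/-!
# Volumes of polytopes of bounded elimination width: goals, part A (real numbers)

All goals are independent: any goal may assume any other goal as a hypothesis.
-/

namespace Pool.Agent.Helper92.BW

open MeasureTheory
open scoped ENNReal

noncomputable section

/-! ### Messages -/

/-- DEP. The message of `v` depends only on the ancestors of `v`. Proof: strong induction on `v` with
`msg_eq`. If `low r = v` and `a r j ≠ 0` then `Abv v j`, so `j = v` or `v < j` (`i ≤ par i`). For a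
child `c` of `v` and `c < j` with `Abv (par c) j` one has `j = v` or `Abv (par v) j` and `v < j`
(here `v < par v`). -/
def DepStmt : Prop := ∀ (n : ℕ) (ι : Type) [Fintype ι] (par : ℕ → ℕ) (low : ι → Fin n)
  (a : ι → Fin n → ℝ) (s : ι → ℝ) (τ : ℝ), Chain par low a → ∀ (v : Fin n) (u u' : Fin n → ℝ),
  (∀ j : Fin n, v < j → Abv par (par v) j → u j = u' j) →
  msg par low a s τ v u = msg par low a s τ v u'

/-- MES. The messages are measurable. Proof: strong induction on `v` with `msg_eq`;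
`Measurable.lintegral_prod_right'` (the map `(u, t) ↦ Function.update u v t` is measurable), finite
products; `ind` is the indicator of a closed half space. -/
def MesStmt : Prop := ∀ (n : ℕ) (ι : Type) [Fintype ι] (par : ℕ → ℕ) (low : ι → Fin n)
  (a : ι → Fin n → ℝ) (s : ι → ℝ) (τ : ℝ) (v : Fin n), Measurable (msg par low a s τ v)

/-- FUB. The volume is the product of the messages of the roots. Proof (may assume DEP, MES). Let
`f = ∏ r, ind a s τ r` (the indicator of `PS a s τ`) and `A j = {i : Fin n | i < j}`. By induction on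
`j ≤ n`, for all `u`:
`(∫⋯∫⁻_(A j), f) u = (∏ r with j ≤ low r, ind r u) * ∏ c with c < j ≤ par c, msg c u`.
Step: `MeasureTheory.lmarginal_insert` (integrate over the variable `v = j` last). For `low r > j`
the row does not involve `j` (`a r j ≠ 0` gives `low r ≤ j`), and for `c < j < par c` the message of
`c` does not depend on `u j` (DEP: `Abv (par c) j` would give `par c ≤ j`), so these factors are
constant (`lintegral_const_mul`, measurability by MES); the others (`low r = j`, `par c = j`) give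
`msg j u` by `msg_eq`. At `j = n`: `lmarginal_univ`. -/
def FubStmt : Prop := ∀ (n : ℕ) (ι : Type) [Fintype ι] (par : ℕ → ℕ) (low : ι → Fin n)
  (a : ι → Fin n → ℝ) (s : ι → ℝ) (τ : ℝ), Chain par low a → ∀ u : Fin n → ℝ,
  volume (PS a s τ) = ∏ c : Rt par n, msg par low a s τ c.1 u

/-- TLM. Translation. Proof: strong induction on `c`. By `msg_eq` and `lintegral_add_right_eq_self`
(replace `t` by `t + W c` in the second integral) it is enough to compare the integrands at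
`u1 = update u c t`, `u1' = update u' c (t + W c)`. If `low r = c` then `a r` vanishes at all `j < c`,
and at `c` the vector `u1' - u1 - W` is zero, so `ip (a r) u1' = ip (a r) u1 + ip (a r) W`. For a
child `c'` of `c` use the induction hypothesis: if `Abv (low r) c'`, `c' < j` and `a r j ≠ 0` then
`c'` and `j` are both above `low r`, so `j` is above `par c' = c`, `c ≤ j`; so the sum over `c' < j`
is the term `j = c` (zero) plus the sum over `c < j` (zero by hypothesis, as `Abv (low r) c`). The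
second part is the first one with `W = 0`, `δ = τ' - τ`, `u' = u`. -/
def TlmStmt : Prop := ∀ (n : ℕ) (ι : Type) [Fintype ι] (par : ℕ → ℕ) (low : ι → Fin n)
  (a : ι → Fin n → ℝ) (s : ι → ℝ), Chain par low a →
  (∀ (τ δ : ℝ) (c : Fin n) (u u' W : Fin n → ℝ), W ∈ PS a s δ →
    (∀ r, Abv par (low r) c → ∑ j, (if c < j then a r j * (u' j - u j - W j) else 0) = 0) →
    msg par low a s τ c u ≤ msg par low a s (τ + δ) c u') ∧
  ((∀ r, 0 ≤ s r) → ∀ (τ τ' : ℝ) (c : Fin n) (u : Fin n → ℝ), τ ≤ τ' →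
    msg par low a s τ c u ≤ msg par low a s τ' c u)

/-- EXT. Extension. Proof: strong induction on `v`. Let `u1 = update u v t`. All rows with
`low r = v` are satisfied by `u1`, and `msg c u1 ≠ 0` for all children `c`, so the integrand of
`msg c u1` is not zero for some `t'`; take the points `u c` of the induction hypothesis (for `c`,
`u1`, `t'`) and let `u'' j = u c j` if `j` is below the child `c` (for at most one child: if `j` is
below `c` and `c'`, then one of them is above the other one, and if `c ≠ c'` also above its parent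
`v`) and `u'' j = u1 j` otherwise. A row with `Abv (low r) v` has `low r = v` (then its variables are
above `v`, so not below a child, `u'' = u1` on them), or `low r` is below a child `c`; then each of
its variables `j` is above `low r`, so it is below `c` or above `v` (and `u c j = u1 j`, as `j` is not
below `c`). -/
def ExtStmt : Prop := ∀ (n : ℕ) (ι : Type) [Fintype ι] (par : ℕ → ℕ) (low : ι → Fin n)
  (a : ι → Fin n → ℝ) (s : ι → ℝ) (τ : ℝ), Chain par low a → ∀ (v : Fin n) (u : Fin n → ℝ) (t : ℝ),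
  (∏ r ∈ Finset.univ.filter (fun r => low r = v), ind a s τ r (Function.update u v t)) *
    ∏ c : Ch par v, msg par low a s τ c.1 (Function.update u v t) ≠ 0 →
  ∃ u'' : Fin n → ℝ, u'' v = t ∧ (∀ j : Fin n, ¬ Abv par j v → u'' j = u j) ∧
    ∀ r, Abv par (low r) v → -(τ * s r) ≤ ip (a r) u''

/-- SCT. The scales. Proof: by induction on `j ≤ n`, `∏ c with c < j ≤ par c, scT c = ∏ v < j, M v/G`
(in the step `j → j + 1` the factors `c` with `par c = j` are replaced by `scT j`, which is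
`M j / G` times their product). -/
def SctStmt : Prop := ∀ (n : ℕ) (par : ℕ → ℕ) (G : ℕ) (M : Fin n → ℝ), (∀ i < n, i < par i) →
  ∏ c : Rt par n, scT par G M c.1 = ∏ v, M v / G ∧
  (1 ≤ G → (∀ v, 0 < M v) → ∀ v, 0 < scT par G M v)

/-- UPC. The upper bound. Proof (may assume TLM, SCT). Strong induction on `v`. `N v e ≥ 0` is clear
from the recursion (each `ch i c` is `0` or some `N c e'`). Let `u` be as in the statement, `i` with
`i < 2G+1` and all rows with `low r = v` satisfied by `X = X v e i`, all `ch i c ≠ 0` (otherwise the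
summand is zero), and let `t` be in the interval `T i = {t : |ip (o v) (update u v t) - (i-G)/G| <
1/(2G)}`, an interval of length `M v / G` (`o v v = 1/M v`), these intervals are disjoint. Let
`u' = update u v t` and `w = u' - X`. By `g1`, `x1`: `|ip (g v l) w| ≤ 1/(2G)`,
`|ip (o v) w| ≤ 1/(2G)`, so by `g6` there is `W ∈ PS 1` such that `w0 = w - W/D` is in the kernel of
all `g v l` and `o v`. Then `w0 v = 0` (`g3`), `∑_(v<j) a r j * w0 j = 0` if `Abv (low r) v` (`g2`).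
So for `low r = v`: `ip (a r) w0 = 0` (`a r j ≠ 0` gives `v ≤ j`) and
`ip (a r) u' = ip (a r) X + ip (a r) W / D ≥ -s r - s r/D ≥ -(1+(v+1)/D) s r`.
For a child `c`: `ch i c = N c e'`, by the induction hypothesis for `c`, `e'`, `X` and by
monotonicity (`c + 1 ≤ v`) and by TLM (with `W/D ∈ PS (1/D)`; for `Abv (low r) c`, `c < j`,
`a r j ≠ 0` one has `v ≤ j`):
`scT c * N c e' ≤ msg (1 + (c+1)/D) c X ≤ msg (1 + v/D) c X ≤ msg (1 + (v+1)/D) c u'`.
So `∏ c, scT c * ch i c` is at most the integrand of `msg (1+(v+1)/D) v u` at `t`; integrate over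
`T i` and sum over `i` (disjoint measurable sets). -/
def UpcStmt : Prop := ∀ (n k : ℕ) (ι E : Type) [Fintype ι] (par : ℕ → ℕ) (low : ι → Fin n)
  (a : ι → Fin n → ℝ) (s : ι → ℝ) (G D : ℕ) (ctr : E → Fin k → ℝ)
  (g : Fin n → Fin k → Fin n → ℝ) (o : Fin n → Fin n → ℝ) (M : Fin n → ℝ)
  (X : Fin n → E → ℕ → Fin n → ℝ) (N : Fin n → E → ℝ), Chain par low a → (∀ r, 0 ≤ s r) →
  1 ≤ G → 1 ≤ D → Fra par low a s G D ctr g o M X → IsTab par low a s G ctr g X N →
  ∀ (v : Fin n) (e : E), 0 ≤ N v e ∧ ∀ u : Fin n → ℝ,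
    (∀ l, |ip (g v l) u - ctr e l| ≤ 1 / (2 * G)) →
    ENNReal.ofReal (scT par G M v * N v e) ≤ msg par low a s (1 + ((v.val : ℝ) + 1) / D) v u

/-- LOC. The lower bound. Proof (may assume TLM, EXT, SCT, UPC, MES). Strong induction on `v`; let
`τ = 1 - (v+1)/D`, `H i` the summand `i` of `N v e` (with `scT c * ch i c` for `ch i c`),
`F t` the integrand of `msg τ v u`. Let `F t ≠ 0` and `u1 = update u v t`. By EXT there is
`u'' ∈ PS τ` with `u'' v = t` and `u'' j = u j` for all `j` which are not below `v` (a row `r` for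
which `low r` is not below `v` involves no variable below `v`, so it is satisfied since
`u ∈ PS τ`). By `g5` (`PS τ ⊆ PS 1`) `|ip (o v) u''| ≤ 1`, so there is `i < 2G+1` with
`|ip (o v) u'' - (i-G)/G| ≤ 1/(2G)`; and `ip (o v) u'' = ip (o v) u1` (`o1`: `o v` vanishes before
`v`). Let `X = X v e i`, `w = X - u''`; by `g6` there is `W ∈ PS 1` such that
`w0 = w - W/D` is in the kernel of `g v l`, `o v`. Let `u3 = u'' + W/D ∈ PS (1 - v/D)`. For
`low r = v`: `ip (a r) X = ip (a r) u3 ≥ -(1 - v/D) s r ≥ -s r`. For a child `c`: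
`ip (g c l) X = ip (g c l) u3` (`g4`), of absolute value at most `1` (`g5`), so `ch i c = N c e'`, and
by the induction hypothesis for `c`, `e'`, `u3` (`u3 ∈ PS (1 - v/D) ⊆ PS (1 - (c+1)/D)`), by
monotonicity and TLM (`u3 - u1 - W/D = u'' - u1` vanishes at all `j > c` with `a r j ≠ 0`, since
`v ≤ j`): `scT c * N c e' ≥ msg (1 - (c+1)/D) c u3 ≥ msg (1 - v/D) c u3 ≥ msg τ c u1`. So
`F t ≤ H i` for some `i` with `|ip (o v) u1 - (i-G)/G| ≤ 1/(2G)`, for every `t`; integrate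
(`F ≤ ∑ i, indicator of a closed interval of length M v / G times H i`). -/
def LocStmt : Prop := ∀ (n k : ℕ) (ι E : Type) [Fintype ι] (par : ℕ → ℕ) (low : ι → Fin n)
  (a : ι → Fin n → ℝ) (s : ι → ℝ) (G D : ℕ) (ctr : E → Fin k → ℝ)
  (g : Fin n → Fin k → Fin n → ℝ) (o : Fin n → Fin n → ℝ) (M : Fin n → ℝ)
  (X : Fin n → E → ℕ → Fin n → ℝ) (N : Fin n → E → ℝ), Chain par low a → (∀ r, 0 ≤ s r) →
  1 ≤ G → 1 ≤ D → Fra par low a s G D ctr g o M X → IsTab par low a s G ctr g X N →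
  ∀ (v : Fin n) (e : E), ∀ u ∈ PS a s (1 - ((v.val : ℝ) + 1) / D),
    (∀ l, |ip (g v l) u - ctr e l| ≤ 1 / (2 * G)) →
    msg par low a s (1 - ((v.val : ℝ) + 1) / D) v u ≤ ENNReal.ofReal (scT par G M v * N v e)

/-- MNA. The volume. Proof (may assume FUB, TLM, SCT, UPC, LOC). `volume (PS τ) = τ^n volume (PS 1)`
for `τ > 0` (`Measure.addHaar_smul`). By FUB (at `u = 0`), LOC and UPC (for each root `c`, `e0` and
`u = 0`; `c + 1 ≤ n`, monotonicity), `∏ roots` and SCT. -/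
def MnaStmt : Prop := ∀ (n k : ℕ) (ι E : Type) [Fintype ι] (par : ℕ → ℕ) (low : ι → Fin n)
  (a : ι → Fin n → ℝ) (s : ι → ℝ) (G D : ℕ) (ctr : E → Fin k → ℝ)
  (g : Fin n → Fin k → Fin n → ℝ) (o : Fin n → Fin n → ℝ) (M : Fin n → ℝ)
  (X : Fin n → E → ℕ → Fin n → ℝ) (N : Fin n → E → ℝ) (e0 : E), Chain par low a →
  (∀ r, 0 ≤ s r) → 1 ≤ G → n < D → Fra par low a s G D ctr g o M X →
  IsTab par low a s G ctr g X N → (∀ l, ctr e0 l = 0) → volume (PS a s 1) ≠ ∞ →
  (1 - (n : ℝ) / D) ^ n * (volume (PS a s 1)).toReal ≤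
    (∏ v, M v / G) * ∏ c : Rt par n, N c.1 e0 ∧
  (∏ v, M v / G) * ∏ c : Rt par n, N c.1 e0 ≤
    (1 + (n : ℝ) / D) ^ n * (volume (PS a s 1)).toReal

/-! ### Simplices -/

/-- The number `1 - μ + μ (φ i0 - φ i)/φ i0`, `μ = 1/(2(d+1)^2)`. -/
def us {d : ℕ} (φ : Fin (d + 1) → ℝ) (i0 i : Fin (d + 1)) : ℝ :=
  1 - 1 / (2 * ((d : ℝ) + 1) ^ 2) + 1 / (2 * ((d : ℝ) + 1) ^ 2) * ((φ i0 - φ i) * (φ i0)⁻¹)

/-- One step from the simplex `V` to `V'` with the weights `φ`. -/
def CutS {d : ℕ} (V V' : Fin (d + 1) → Fin d → ℝ) (φ : Fin (d + 1) → ℝ) : Prop :=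
  ∃ (i0 : Fin (d + 1)) (ν : Fin (d + 1) → ℝ), (∀ i, φ i ≤ φ i0) ∧
    (∀ i, i ≠ i0 → 1 ≤ ν i * us φ i0 i ∧ ν i ≤ 1 / us φ i0 i + 1 / (16 * ((d : ℝ) + 1) ^ 3)) ∧
    ∀ i l, V' i l = V i0 l + ν i * (V i l - V i0 l)

/-- SCU. One step (compare `Pool/Agent/Helper61/FR/CUT.lean`, the same with central cuts). Proof.
`0 ≤ ∑ φ` gives `φ i0 ≥ 0`; let `w i = (φ i0 - φ i) (φ i0)⁻¹ ≥ 0`, `u i = us φ i0 i = 1 + μ (w i - 1)`.
(1) If `φ i0 > 0` then `∑ b i w i ≤ 1` (as `∑ b i φ i ≥ 0`), so `∑_{i≠i0} b i u i ≤ 1`; if `φ i0 = 0`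
then `u i = 1 - μ` and this is also true. Put `b' i = b i/ν i ≤ b i u i` for `i ≠ i0`, and
`x = V i0 + ∑_{i≠i0} b' i (V' i - V i0)`.
(2) `det (hom V') = (∏_{i≠i0} ν i) det (hom V)` (row operations), and with `Q = 16(d+1)^3`
`∏_{i≠i0} ν i ≤ ∏ (1/u i) (1 + u i/Q)`. `∑ w i = (d+1) - (∑ φ)/φ i0 ∈ [d + 3/4, d + 1]`, so
`∑_{i≠i0} u i ≤ d + 1`, `∏ (1 + u i/Q) ≤ e^((d+1)/Q) = e^(1/(16(d+1)^2))`. With
`log (1+x) ≥ x - x^2` for `|x| ≤ 1/2`, `x = μ (w i - 1)`,
`∑_{i≠i0} log (u i) ≥ (3/4) μ - μ^2 ∑_{i≠i0} (w i - 1)^2 ≥ (3/4) μ - μ^2 (d+1)^2 = μ/4`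
(`∑ (w i - 1)^2 ≤ (∑ w i)^2 - 2 ∑ w i + d ≤ (d+1)^2`), which is `1/(8(d+1)^2)`.
(3) `ν i > 0` as `u i > 0`. -/
def ScuStmt : Prop := ∀ (d : ℕ), 1 ≤ d → ∀ (V V' : Fin (d + 1) → Fin d → ℝ)
  (φ : Fin (d + 1) → ℝ), CutS V V' φ → 0 ≤ ∑ i, φ i →
  (∀ b : Fin (d + 1) → ℝ, (∀ i, 0 ≤ b i) → ∑ i, b i = 1 → 0 ≤ ∑ i, b i * φ i →
    FR.InS V' fun l => ∑ i, b i * V i l) ∧
  ((∃ i, 0 < φ i ∧ ∑ i', φ i' ≤ φ i / 4) →
    |(FR.hom V').det| ≤ Real.exp (-(1 / (16 * ((d : ℝ) + 1) ^ 2))) * |(FR.hom V).det|) ∧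
  ((FR.hom V).det ≠ 0 → (FR.hom V').det ≠ 0)

/-- SCP. After `T` steps some point of a given small cube is not in the simplex (compare
`Pool/Agent/Helper41/FR/CPA.lean`). Proof (may assume SCU). Let `p 0 = y`, `p (i+1) = y + ρ e_i` be
`d + 1` corners of the cube. If all of them are in `V T` then the matrix `hom p` is the product of a
matrix with nonnegative entries and row sums one, whose determinant is at most one in absolute value,
and `hom (V T)`: `ρ^d ≤ |det (hom (V T))| ≤ (2dB)^d e^(-T/(16(d+1)^2))`, a contradiction. -/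
def ScpStmt : Prop := ∀ (d : ℕ), 1 ≤ d → ∀ (V : ℕ → Fin (d + 1) → Fin d → ℝ)
  (φ : ℕ → Fin (d + 1) → ℝ) (B : ℝ) (T : ℕ), 0 < B →
  (∀ i l, V 0 i l = if i.val = l.val + 1 then (2 * (d : ℝ) - 1) * B else -B) →
  (∀ k < T, CutS (V k) (V (k + 1)) (φ k) ∧ 0 ≤ ∑ i, φ k i ∧
    ∃ i, 0 < φ k i ∧ ∑ i', φ k i' ≤ φ k i / 4) →
  ∀ (ρ : ℝ) (y : Fin d → ℝ), 0 < ρ →
  16 * ((d : ℝ) + 1) ^ 2 * (d * Real.log (2 * d * B / ρ)) < T →
  ∃ x, (∀ l, y l ≤ x l ∧ x l ≤ y l + ρ) ∧ ¬ FR.InS (V T) x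

/-! ### Triangular frames -/

/-- TRI. Triangular frames. Proof: solve from the last index down: `c j = τ j - ∑_(l>j) c l ip (g j)
(y l)` if `g j ≠ 0`, and `c j = 0` if `g j = 0`; `|c j| ≤ β + ∑_(l>j) |c l|`, so
`∑_(l≥j) |c l| ≤ (2^(m-j) - 1) β`. -/
def TriStmt : Prop := ∀ (n m : ℕ) (g y : Fin m → Fin n → ℝ),
  (∀ j, ip (g j) (y j) = 1 ∨ (g j = 0 ∧ y j = 0)) → (∀ j l, l < j → ip (g j) (y l) = 0) →
  (∀ j l, |ip (g j) (y l)| ≤ 1) → ∀ (τ : Fin m → ℝ) (β : ℝ), 0 ≤ β → (∀ j, |τ j| ≤ β) →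
  (∀ j, g j = 0 → τ j = 0) → ∃ c : Fin m → ℝ, (∀ j, ip (g j) (fun x => ∑ l, c l * y l x) = τ j) ∧
    ∑ l, |c l| ≤ (2 ^ m - 1) * β

end

end Pool.Agent.Helper92.BW
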