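import Mathlib.LinearAlgebra.Dimension.Finrank
import Pool.Agent.Helper92.FR.Stmt

/-!
# Volumes of polytopes of bounded elimination width: the statement

`RQ` (rational numbers in binary), `RQ.bits`, `coef` and `vol` are in `Pool.Agent.Helper92.VP.Defs`;
`Sys`, `sol` (the polyhedron) in `Pool.Agent.Helper92.FR.Stmt`. In `encOf` natural numbers of the
type `ℕ` are coded in unary.
-/

namespace Pool.Agent.Helper92.BW

open Pool.Agent.Helper81.CC Pool.Agent.Bin Pool.Agent.Helper92.VP Pool.Agent.Helper92.FR

/-- In the forest with the list `par` of the parents, `j` is equal to `i` or an ancestor of `i`. -/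
def Above (par : List ℕ) (i j : ℕ) : Prop := ∃ t : ℕ, (fun x => par.getD x x)^[t] i = j

/-- The rows which involve a variable below `v` (or `v` itself), restricted to the variables after
`v`. -/
def cutRows (S : Sys) (par : List ℕ) (v : ℕ) : Set (Fin S.1 → ℝ) :=
  {w | ∃ r ∈ S.2, (∃ i < S.1, coef r i ≠ 0 ∧ Above par i v) ∧
    w = fun j : Fin S.1 => if v < j.val then coef r j else 0}

/-- `par` is an elimination forest of width at most `k` of the system `S`: each variable `i` has a
parent `par i > i` (a root if `par i` is at least the number of the variables); of two variables in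
a row one is an ancestor of the other; and for each variable `v` the rows which involve a variable
below `v` (or `v` itself), restricted to the variables after `v` (in fact these are ancestors of
`v`), span a space of dimension at most `k`. -/
def Elim (k : ℕ) (S : Sys) (par : List ℕ) : Prop :=
  par.length = S.1 ∧ (∀ i < S.1, i < par.getD i i) ∧
  (∀ r ∈ S.2, ∀ i j, i < j → j < S.1 → coef r i ≠ 0 → coef r j ≠ 0 → Above par i j) ∧
  ∀ v < S.1, Set.finrank ℝ (cutRows S par v) ≤ k

/-- A deterministic polynomial-time machine computes, for each system `S = (A, b)` with a bounded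
polyhedron, each list `par` and each `q ≥ 1` (in unary), a rational number, which is the volume up
to a relative error of at most `1 / q` if `par` is an elimination forest of width at most `k`. -/
def BoundedWidth (k : ℕ) : Prop :=
  ∃ f : (Sys × List ℕ) × ℕ → RQ,
    PolyTimeComputable (encOf ((Sys × List ℕ) × ℕ)) (encOf RQ) f ∧
    ∀ (S : Sys) (par : List ℕ) (q : ℕ), Bornology.IsBounded (sol S) → 1 ≤ q → Elim k S par →
      |(f ((S, par), q)).val - vol (sol S)| ≤ vol (sol S) / q

end Pool.Agent.Helper92.BW
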