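import Pool.Agent.Helper92.FR.GoalsS
import Pool.Agent.Helper92.BW.Stmt

/-!
# Volumes of polytopes of bounded elimination width: the algorithm

All functions below are computed in polynomial time for each fixed `k` (functions which are defined
by recursion on a number of the type `ℕ`, like `resk`, `frm`, `back`, `cidx`, are only used for
fixed values of this number); natural numbers of the type `ℕ` are in unary, `BN` in binary, `Qn` are
exact rational numbers.
-/

namespace Pool.Agent.Helper92.BW

open Pool.Agent.Helper81.CC Pool.Agent.Bin Pool.Agent.Helper92.VP Pool.Agent.Helper92.FR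

/-! ### Rows -/

/-- The rows of a system; all lists of coefficients get the length `n`. -/
def rowsQ (S : Sys) : List (List Qn × Qn) :=
  S.2.map fun r => ((List.range S.1).map fun j => rco r j, ofRQ r.2)

/-! ### Rounding: simplices with shallow cuts -/

/-- The value of the row `r` at the vertex `i`. -/
def phi (st : Cst) (r : List Qn × Qn) (i : ℕ) : Qn := Qn.sub (dot r.1 (vert st i)) r.2

/-- The value of the row `r` at the centroid. -/
def phm (d : ℕ) (st : Cst) (r : List Qn × Qn) : Qn :=
  Qn.mul (invNat (d + 1)) (Qn.sum ((List.range (d + 1)).map (phi st r)))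

/-- The factor of the rounding. -/
def qc (d : ℕ) : ℕ := 4 * (d + 1) ^ 2

/-- Is some vertex of the simplex shrunk by the factor `1 / qc d` cut off by the row `r`? -/
def bad (d : ℕ) (st : Cst) (r : List Qn × Qn) : Bool :=
  (List.range (d + 1)).any fun i =>
    !(Qn.le Qn.zero (Qn.add (Qn.mul (qNat (qc d - 1)) (phm d st r)) (phi st r i)))

/-- The weights of the cut: the values at the vertices, shifted if the value at the centroid is
negative. -/
def phs (d : ℕ) (st : Cst) (r : List Qn × Qn) : List Qn :=
  (List.range (d + 1)).map fun i =>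
    Qn.sub (phi st r i) (if Qn.le (phm d st r) Qn.zero = true then phm d st r else Qn.zero)

/-- The index of the largest weight. -/
def pmax (d : ℕ) (ph : List Qn) : ℕ :=
  ((List.range (d + 1)).find? fun i =>
    (List.range (d + 1)).all fun i' => Qn.le (ph.getD i' Qn.zero) (ph.getD i Qn.zero)).getD 0

/-- The scale `16 (d+1)^3`. -/
def qs (d : ℕ) : ℕ := 16 * (d + 1) ^ 3

/-- The stretching factor (times `qs d`) of the vertex `i`. -/
def sfac0 (d : ℕ) (ph : List Qn) (i : ℕ) : BN :=
  Qn.fl (Qn.mul (qNat (qs d)) (Qn.inv (Qn.add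
    (Qn.sub Qn.one (invNat (2 * (d + 1) ^ 2)))
    (Qn.mul (invNat (2 * (d + 1) ^ 2))
      (Qn.mul (Qn.sub (ph.getD (pmax d ph) Qn.zero) (ph.getD i Qn.zero))
        (Qn.inv (ph.getD (pmax d ph) Qn.zero))))))) + ⟨1⟩

/-- The same, with a cap (which is never reached). -/
def sfac (d : ℕ) (ph : List Qn) (i : ℕ) : BN :=
  if sfac0 d ph i ≤ BN.ofNat (2 * qs d) then sfac0 d ph i else BN.ofNat (2 * qs d)

/-- One step with the weights `ph`. -/
def scut (d : ℕ) (st : Cst) (ph : List Qn) : Cst :=
  ((List.range (d + 1)).map fun i => (List.range d).map fun l =>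
    if i = pmax d ph then
      (BN.ofNat (qs d) * ((st.1.getD i []).getD l (⟨0⟩, ⟨0⟩)).1,
        BN.ofNat (qs d) * ((st.1.getD i []).getD l (⟨0⟩, ⟨0⟩)).2)
    else
      (BN.ofNat (qs d) * ((st.1.getD (pmax d ph) []).getD l (⟨0⟩, ⟨0⟩)).1 +
        sfac d ph i * (((st.1.getD i []).getD l (⟨0⟩, ⟨0⟩)).1 +
          ((st.1.getD (pmax d ph) []).getD l (⟨0⟩, ⟨0⟩)).2),
       BN.ofNat (qs d) * ((st.1.getD (pmax d ph) []).getD l (⟨0⟩, ⟨0⟩)).2 +
        sfac d ph i * (((st.1.getD i []).getD l (⟨0⟩, ⟨0⟩)).2 +
          ((st.1.getD (pmax d ph) []).getD l (⟨0⟩, ⟨0⟩)).1)),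
    BN.ofNat (qs d) * st.2)

/-- One step of the rounding. -/
def rstep (d : ℕ) (rows : List (List Qn × Qn)) (st : Cst) : Cst :=
  ((rows.find? (bad d st)).map fun r => scut d st (phs d st r)).getD st

/-- The state after `T` steps; the first simplex contains all `x` with `|x l| ≤ 2^B`. -/
def rst (d : ℕ) (rows : List (List Qn × Qn)) (B T : ℕ) : Cst := (rstep d rows)^[T] (cini d B)

/-- The vertices relative to the centroid. -/
def uverts (d : ℕ) (st : Cst) : List (List Qn) :=
  (List.range (d + 1)).map fun i => List.zipWith Qn.sub (vert st i) (cen d st)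

/-- The rows relative to the centroid: `a · u ≥ - s`. -/
def crows (d : ℕ) (st : Cst) (rows : List (List Qn × Qn)) : List (List Qn × Qn) :=
  rows.map fun r => (r.1, Qn.sub (dot r.1 (cen d st)) r.2)

/-! ### The forest -/

/-- The ancestor of `i` after `t` steps (`n` if there is none). -/
def clm (n : ℕ) (par : List ℕ) (i t : ℕ) : ℕ :=
  (List.range t).foldl (fun x _ => if x < n then min (par.getD x x) n else n) i

/-- Is `j` equal to `i` or an ancestor of `i`? -/
def abvB (n : ℕ) (par : List ℕ) (i j : ℕ) : Bool :=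
  (List.range (n + 1)).any fun t => decide (clm n par i t = j)

/-- The first variable of a row (`n` if there is none). -/
def lowr (n : ℕ) (r : List Qn × Qn) : ℕ :=
  ((List.range n).find? fun j => qnz (r.1.getD j Qn.zero)).getD n

/-- The rows which involve a variable below `v`, restricted to the variables after `v`. -/
def fam (n : ℕ) (par : List ℕ) (rows : List (List Qn × Qn)) (v : ℕ) : List (List Qn) :=
  (rows.filter fun r => abvB n par (lowr n r) v).map fun r =>
    (List.range n).map fun j => if v < j then r.1.getD j Qn.zero else Qn.zero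

/-! ### Frames -/

/-- `x v`. -/
def smul (x : Qn) (v : List Qn) : List Qn := v.map (Qn.mul x)

/-- The sum of two vectors. -/
def addv (x y : List Qn) : List Qn := List.zipWith Qn.add x y

/-- The zero vector. -/
def zerov (n : ℕ) : List Qn := List.replicate n Qn.zero

/-- The unit vector. -/
def unitv (n v : ℕ) : List Qn := (List.range n).map fun j => if j = v then Qn.one else Qn.zero

/-- A frame: a list of pairs `(g, y)` of a functional and a point. -/
abbrev Frm := List (List Qn × List Qn)

/-- The functional `j`. -/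
def gE (F : Frm) (j : ℕ) : List Qn := (F.getD j ([], [])).1

/-- The point `j`. -/
def yE (F : Frm) (j : ℕ) : List Qn := (F.getD j ([], [])).2

/-- The residual of the functional `f` after the first `j` members of the frame. -/
def resk : ℕ → Frm → List Qn → List Qn
  | 0, _, f => f
  | j + 1, F, f => rowsub (dot (resk j F f) (yE F j)) (resk j F f) (gE F j)

/-- The index of a vertex where `|g|` is the largest. -/
def amx (n : ℕ) (U : List (List Qn)) (g : List Qn) : ℕ :=
  ((List.range (n + 1)).find? fun i => (List.range (n + 1)).all fun i' =>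
    Qn.le (Qn.abs (dot g (U.getD i' []))) (Qn.abs (dot g (U.getD i [])))).getD 0

/-- The value at this vertex. -/
def mxv (n : ℕ) (U : List (List Qn)) (g : List Qn) : Qn := dot g (U.getD (amx n U g) [])

/-- The normalised functional, with a point where its value is one. -/
def prn (n : ℕ) (U : List (List Qn)) (g : List Qn) : List Qn × List Qn :=
  (smul (Qn.inv (Qn.abs (mxv n U g))) g,
    smul (Qn.mul (mxv n U g) (Qn.inv (Qn.abs (mxv n U g)))) (U.getD (amx n U g) []))

/-- The member `j` of the frame of the family `Φ`. -/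
def nxt (n j : ℕ) (F : Frm) (Φ U : List (List Qn)) : List Qn × List Qn :=
  ((Φ.find? fun f => qnz (mxv n U (resk j F f))).map fun f => prn n U (resk j F f)).getD
    (zerov n, zerov n)

/-- The first `j` members of the frame of the family `Φ`. -/
def frm (n : ℕ) (Φ U : List (List Qn)) : ℕ → Frm
  | 0 => []
  | j + 1 => frm n Φ U j ++ [nxt n j (frm n Φ U j) Φ U]

/-- The own functional of `v`, not normalised. -/
def ownr (n k : ℕ) (U Φ : List (List Qn)) (v : ℕ) : List Qn := resk k (frm n Φ U k) (unitv n v)

/-- The frame of `v`, with `k + 1` members (the last one is the own functional). -/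
def fr (n k : ℕ) (U Φ : List (List Qn)) (v : ℕ) : Frm :=
  frm n Φ U k ++ [prn n U (ownr n k U Φ v)]

/-- The scale of `v`. -/
def msc (n k : ℕ) (U Φ : List (List Qn)) (v : ℕ) : Qn := Qn.abs (mxv n U (ownr n k U Φ v))

/-! ### The grid -/

/-- The coordinate `(d - G) / G`. -/
def gq (G d : ℕ) : Qn := Qn.mul (invNat G) (Qn.sub (qNat d) (qNat G))

/-- Makes the first `j` coordinates of `x` (in the frame `F`) equal to those of the grid point
`e`. -/
def back : ℕ → Frm → ℕ → ℕ → List Qn → List Qn
  | 0, _, _, _, x => x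
  | j + 1, F, G, e, x => back j F G e (addv x
      (smul (Qn.sub (gq G (e / (2 * G + 1) ^ j % (2 * G + 1))) (dot (gE F j) x)) (yE F j)))

/-- The cell of `x` (first `j` coordinates). -/
def cidx : ℕ → Frm → ℕ → List Qn → Option ℕ
  | 0, _, _, _ => some 0
  | j + 1, F, G, x => (cidx j F G x).bind fun e =>
      ((List.range (2 * G + 1)).find? fun d =>
        Qn.le (Qn.abs (Qn.sub (dot (gE F j) x) (gq G d))) (invNat (2 * G))).map
          fun d => e + d * (2 * G + 1) ^ j

/-- The cell with the centre zero. -/
def ezero : ℕ → ℕ → ℕ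
  | 0, _ => 0
  | j + 1, G => ezero j G + G * (2 * G + 1) ^ j

/-! ### The dynamic program -/

/-- The grid point `(e, i)` of the bag of `v`. -/
def gpt (k n G : ℕ) (F : Frm) (e i : ℕ) : List Qn :=
  back (k + 1) F G (e + i * (2 * G + 1) ^ k) (zerov n)

/-- The entry `e` of the table of `v`; `cr` are the centred rows, `Fs` the frames, `T` the tables of
all smaller variables. -/
def ent (k n G : ℕ) (cr : List (List Qn × Qn)) (Fs : List Frm) (par : List ℕ) (T : List (List BN))
    (v e : ℕ) : BN :=
  BN.sum ((List.range (2 * G + 1)).map fun i =>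
    if (cr.all fun r => !(decide (lowr n r = v)) ||
        Qn.le (Qn.neg r.2) (dot r.1 (gpt k n G (Fs.getD v []) e i))) = true then
      BN.prod ((List.range v).map fun c => if par.getD c c = v then
        ((cidx k (Fs.getD c []) G (gpt k n G (Fs.getD v []) e i)).map fun e' =>
          (T.getD c []).getD e' ⟨0⟩).getD ⟨0⟩ else ⟨1⟩)
    else ⟨0⟩)

/-- The tables. -/
def tabs (k n G : ℕ) (cr : List (List Qn × Qn)) (Fs : List Frm) (par : List ℕ) : List (List BN) :=
  (List.range n).foldl (fun T v =>
    T ++ [(List.range ((2 * G + 1) ^ k)).map fun e => ent k n G cr Fs par T v e]) []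

/-- The product of the entries of the roots. -/
def rootp (k n G : ℕ) (par : List ℕ) (T : List (List BN)) : BN :=
  BN.prod ((List.range n).map fun c =>
    if n ≤ par.getD c c then (T.getD c []).getD (ezero k G) ⟨0⟩ else ⟨1⟩)

/-- The volume. -/
def volQ (k n G : ℕ) (cr : List (List Qn × Qn)) (U : List (List Qn)) (par : List ℕ) : Qn :=
  Qn.mul (Qn.ofBN (rootp k n G par (tabs k n G cr
      ((List.range n).map fun v => fr n k U (fam n par cr v) v) par)))
    (Qn.prod ((List.range n).map fun v => Qn.mul (invNat G) (msc n k U (fam n par cr v) v)))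

/-! ### Parameters -/

/-- The final simplex. -/
def stI (S : Sys) : Cst := rst S.1 (rowsQ S) (4 * ssize S ^ 2) (500 * (ssize S + 1) ^ 6)

/-- The inverse of the relative width of the boundary layer. -/
def dI (S : Sys) (q : ℕ) : ℕ := 4 * S.1 ^ 2 * q

/-- The number of the grid points per unit. -/
def gI (k : ℕ) (S : Sys) (q : ℕ) : ℕ := 2 ^ (k + 1) * S.1 * qc S.1 * dI S q

/-- The algorithm. -/
def mainW (k : ℕ) (z : (Sys × List ℕ) × ℕ) : RQ :=
  if z.1.1.1 = 0 then
    (if z.1.1.2.any (fun r => !(Qn.le (ofRQ r.2) Qn.zero)) then (false, ⟨0⟩, ⟨1⟩)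
      else (false, ⟨1⟩, ⟨1⟩))
  else if (rowsQ z.1.1).any (bad z.1.1.1 (stI z.1.1)) then (false, ⟨0⟩, ⟨1⟩)
  else toRQ (volQ k z.1.1.1 (gI k z.1.1 z.2) (crows z.1.1.1 (stI z.1.1) (rowsQ z.1.1))
    (uverts z.1.1.1 (stI z.1.1)) z.1.2)

end Pool.Agent.Helper92.BW
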