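import Pool.Agent.Helper92.BW.GoalsC
import Pool.Agent.Helper73.FR.PTC
import Pool.Agent.Helper87.FR.MKP

/-!
# BW-PRO: one step of the rounding in polynomial time
-/

namespace Pool.Agent.Helper92.BW

open Pool.Agent.Helper81.CC Pool.Agent.Bin Pool.Agent.Helper92.VP Pool.Agent.Helper92.FR
open Pool.Agent.Helper62.FR Pool.Agent.Helper87.FR Pool.Agent.Helper73.FR

variable {α : Type} [ToData α]

@[fun_prop] theorem PT_qsB {n : α → ℕ} (hn : PolyTime n) : PolyTime (fun a => qs (n a)) := by
  unfold qs
  fun_prop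

@[fun_prop] theorem PT_qcB {n : α → ℕ} (hn : PolyTime n) : PolyTime (fun a => qc (n a)) := by
  unfold qc
  fun_prop

@[fun_prop] theorem PT_phi {st : α → Cst} {r : α → List Qn × Qn} {i : α → ℕ} (hst : PolyTime st)
    (hr : PolyTime r) (hi : PolyTime i) : PolyTime (fun a => phi (st a) (r a) (i a)) := by
  unfold phi
  fun_prop

@[fun_prop] theorem PT_phm {d : α → ℕ} {st : α → Cst} {r : α → List Qn × Qn} (hd : PolyTime d)
    (hst : PolyTime st) (hr : PolyTime r) : PolyTime (fun a => phm (d a) (st a) (r a)) := by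
  unfold phm
  fun_prop

@[fun_prop] theorem PT_badB {d : α → ℕ} {st : α → Cst} {r : α → List Qn × Qn} (hd : PolyTime d)
    (hst : PolyTime st) (hr : PolyTime r) : PolyTime (fun a => bad (d a) (st a) (r a)) := by
  unfold bad
  fun_prop

@[fun_prop] theorem PT_phs {d : α → ℕ} {st : α → Cst} {r : α → List Qn × Qn} (hd : PolyTime d)
    (hst : PolyTime st) (hr : PolyTime r) : PolyTime (fun a => phs (d a) (st a) (r a)) := by
  unfold phs
  fun_prop

@[fun_prop] theorem PT_pmax {d : α → ℕ} {ph : α → List Qn} (hd : PolyTime d)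
    (hp : PolyTime ph) : PolyTime (fun a => pmax (d a) (ph a)) := by
  unfold pmax
  fun_prop

@[fun_prop] theorem PT_sfac0 {d : α → ℕ} {ph : α → List Qn} {i : α → ℕ} (hd : PolyTime d)
    (hp : PolyTime ph) (hi : PolyTime i) : PolyTime (fun a => sfac0 (d a) (ph a) (i a)) := by
  unfold sfac0
  fun_prop

@[fun_prop] theorem PT_sfac {d : α → ℕ} {ph : α → List Qn} {i : α → ℕ} (hd : PolyTime d)
    (hp : PolyTime ph) (hi : PolyTime i) : PolyTime (fun a => sfac (d a) (ph a) (i a)) := by
  unfold sfac
  fun_prop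

@[fun_prop] theorem PT_scut {d : α → ℕ} {st : α → Cst} {ph : α → List Qn} (hd : PolyTime d)
    (hst : PolyTime st) (hp : PolyTime ph) : PolyTime (fun a => scut (d a) (st a) (ph a)) := by
  unfold scut
  fun_prop

@[fun_prop] theorem PT_rstep {d : α → ℕ} {st : α → Cst} {rows : α → List (List Qn × Qn)}
    (hd : PolyTime d) (hrows : PolyTime rows) (hst : PolyTime st) :
    PolyTime (fun a => rstep (d a) (rows a) (st a)) := by
  unfold rstep
  fun_prop

theorem pro : ProStmt := by
  constructor
  · unfold rowsQ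
    fun_prop
  · intro α _ d st rows hd hst hrows
    refine ⟨PT_rstep hd hrows hst, ?_, ?_, ?_⟩
    · fun_prop
    · unfold uverts
      fun_prop
    · unfold crows
      fun_prop

end Pool.Agent.Helper92.BW
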