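import Pool.Agent.Helper92.BW.Alg

/-!
# Volumes of polytopes of bounded elimination width: goals, part C (polynomial time)

Tools: `Pool/Agent/Helper81/Comp*.lean` (`PolyTime.list_map`, `PolyTime.foldl_bd`,
`PolyTime.iterate_bd`, `PolyTime.find?`, `PolyTime.all`, `PolyTime.pow`, …),
`Pool/Agent/Helper59/Bin.lean` (binary numbers), `Pool.Agent.Helper92.FR.Num` (all operations of `Qn`
are `fun_prop` lemmas; `Qn.sum`, `Qn.prod` also), `Pool/Agent/Helper38/FR/PTF.lean` (`dot`, `invNat`,
`qNat`, as `fun_prop` lemmas), `Pool/Agent/Helper62/FR/PTN.lean` (`ofRQ`, `toRQ`),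
`Pool/Agent/Helper2/FR/PTV.lean`, `Pool/Agent/Helper87/FR/MKP.lean` (`ssize`, `rco`). A composition
of `PolyTime` functions is `PolyTime`, whatever the sizes; bounds are only needed for `foldl` and
`iterate`. Functions defined by recursion on a number (`resk`, `frm`, `back`, `cidx`, `ezero`):
induction on this fixed number.
-/

namespace Pool.Agent.Helper92.BW

open Pool.Agent.Helper81.CC Pool.Agent.Bin Pool.Agent.Helper92.VP Pool.Agent.Helper92.FR

/-- PRO. The rounding, one step, and the centred data. Proof: compositions. -/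
def ProStmt : Prop := PolyTime rowsQ ∧ ∀ (α : Type) [ToData α] (d : α → ℕ) (st : α → Cst)
  (rows : α → List (List Qn × Qn)), PolyTime d → PolyTime st → PolyTime rows →
  PolyTime (fun a => rstep (d a) (rows a) (st a)) ∧
  PolyTime (fun a => (rows a).any (bad (d a) (st a))) ∧
  PolyTime (fun a => uverts (d a) (st a)) ∧ PolyTime (fun a => crows (d a) (st a) (rows a))

/-- PRI. The rounding. Proof (may assume PRO): `iterate_bd`, as in `Pool/Agent/Helper93/FR/PTS.lean`:
after `k` steps there are at most `d + 1` vertices with at most `d` coordinates each; if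
`p + p' ≤ Y` for all coordinates `(p, p')` then after one more step `p + p' ≤ 5 Q Y`, `Q = qs d`,
since `sfac ≤ 2 Q` (or nothing changes); the denominator is multiplied by `Q`. -/
def PriStmt : Prop := PolyTime stI

/-- PFO. The forest. Proof: `clm` is a `foldl` with values at most `max i n`; the rest are
compositions. -/
def PfoStmt : Prop := ∀ (α : Type) [ToData α] (n v : α → ℕ) (par : α → List ℕ)
  (rows : α → List (List Qn × Qn)) (r : α → List Qn × Qn), PolyTime n → PolyTime v →
  PolyTime par → PolyTime rows → PolyTime r →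
  PolyTime (fun a => fam (n a) (par a) (rows a) (v a)) ∧ PolyTime (fun a => lowr (n a) (r a))

/-- PFR. The frames and the grid, for fixed `k`. Proof: inductions on the fixed number for `resk`,
`frm`, `back`, `cidx`; compositions. -/
def PfrStmt : Prop := ∀ (k : ℕ) (α : Type) [ToData α] (n v G e i : α → ℕ)
  (U Φ : α → List (List Qn)) (F : α → Frm) (x : α → List Qn), PolyTime n → PolyTime v →
  PolyTime G → PolyTime e → PolyTime i → PolyTime U → PolyTime Φ → PolyTime F → PolyTime x →
  PolyTime (fun a => fr (n a) k (U a) (Φ a) (v a)) ∧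
  PolyTime (fun a => msc (n a) k (U a) (Φ a) (v a)) ∧
  PolyTime (fun a => gpt k (n a) (G a) (F a) (e a) (i a)) ∧
  PolyTime (fun a => cidx k (F a) (G a) (x a)) ∧ PolyTime (fun a => ezero k (G a))

/-- PTA. The tables, for fixed `k`. Proof (may assume PFO, PFR): `foldl_bd` over `List.range n`; the
step is a composition. The bound: the state after `v` steps consists of `v` tables with `(2G+1)^k`
entries each. Let `B = 2G + 1` and `m c ≥ 1` bound the entries of the table `c`; each entry of the
table `v` is at most `B * ∏ (c < v with par c = v), m c`. So with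
`F v = ∏ (c < v with v ≤ par c), m c` one may take `m v = B * ∏ (c < v with par c = v), m c`, and
`F (v + 1) ≤ m v * ∏ (c < v with v < par c), m c = B * F v`, so `F v ≤ B^v`, `m v ≤ B^(v+1)`, which
has at most `(v + 1) * B` bits. -/
def PtaStmt : Prop := ∀ (k : ℕ) (α : Type) [ToData α] (n G : α → ℕ)
  (cr : α → List (List Qn × Qn)) (Fs : α → List Frm) (par : α → List ℕ), PolyTime n →
  PolyTime G → PolyTime cr → PolyTime Fs → PolyTime par →
  PolyTime (fun a => tabs k (n a) (G a) (cr a) (Fs a) (par a))

/-- PMA. The algorithm. Proof (may assume PRO, PRI, PFO, PFR, PTA): compositions. -/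
def PmaStmt : Prop := ∀ k : ℕ, PolyTime (mainW k)

end Pool.Agent.Helper92.BW
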