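import Pool.Agent.Helper92.BW.Fin
import Pool.Agent.Helper13.FR.NIN
import Pool.Agent.Helper34.FR.TRR
import Pool.Agent.Helper94.BW.DEP
import Pool.Agent.Helper15.BW.MES
import Pool.Agent.Helper40.BW.FUB
import Pool.Agent.Helper19.BW.TLM
import Pool.Agent.Helper35.BW.EXT
import Pool.Agent.Helper35.BW.SCT
import Pool.Agent.Helper33.BW.UPC
import Pool.Agent.Helper42.BW.LOC
import Pool.Agent.Helper17.BW.MNA
import Pool.Agent.Helper9.BW.SCU
import Pool.Agent.Helper16.BW.SCP
import Pool.Agent.Helper51.BW.TRI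
import Pool.Agent.Helper12.BW.SCV
import Pool.Agent.Helper31.BW.BDV
import Pool.Agent.Helper95.BW.POS
import Pool.Agent.Helper67.BW.RND
import Pool.Agent.Helper19.BW.ABV
import Pool.Agent.Helper61.BW.FAM
import Pool.Agent.Helper77.BW.FRV
import Pool.Agent.Helper38.BW.FRK
import Pool.Agent.Helper50.BW.BKV
import Pool.Agent.Helper9.BW.CIX
import Pool.Agent.Helper15.BW.FRA
import Pool.Agent.Helper69.BW.TBV
import Pool.Agent.Helper34.BW.VFI
import Pool.Agent.Helper92.BW.Pro
import Pool.Agent.Helper73.BW.PRI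
import Pool.Agent.Helper82.BW.PFO
import Pool.Agent.Helper17.BW.PFR
import Pool.Agent.Helper93.BW.PTA
import Pool.Agent.Helper85.BW.PMA

/-!
# Volumes of polytopes of bounded elimination width: the theorem
-/

namespace Pool.Agent.Helper92.BW

/-- The volume of a bounded polyhedron given with an elimination forest of width at most `k` can be
approximated with relative error `1/q` in deterministic polynomial time. -/
theorem boundedWidth (k : ℕ) : BoundedWidth k := by
  have upc : UpcStmt := Pool.Agent.Helper33.BW.upc Pool.Agent.Helper19.BW.tlm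
  have loc : LocStmt := Pool.Agent.Helper42.BW.loc Pool.Agent.Helper19.BW.tlm
    Pool.Agent.Helper35.BW.ext Pool.Agent.Helper35.BW.sct upc
  have fub : FubStmt := Pool.Agent.Helper40.BW.fub Pool.Agent.Helper94.BW.dep
    Pool.Agent.Helper15.BW.mes
  have mna : MnaStmt := Pool.Agent.Helper17.BW.mna fub Pool.Agent.Helper19.BW.tlm
    Pool.Agent.Helper35.BW.sct upc loc
  have frv : FrvStmt := Pool.Agent.Helper77.BW.frv
  have fra : FraStmt := Pool.Agent.Helper15.BW.fra frv Pool.Agent.Helper38.BW.frk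
    Pool.Agent.Helper50.BW.bkv Pool.Agent.Helper51.BW.tri Pool.Agent.Helper19.BW.abv
  have tbv : TbvStmt := Pool.Agent.Helper69.BW.tbv Pool.Agent.Helper9.BW.cix frv
    Pool.Agent.Helper50.BW.bkv
  have vfi : VfiStmt := Pool.Agent.Helper34.BW.vfi mna fra tbv Pool.Agent.Helper9.BW.cix
  have rnd : RndStmt := Pool.Agent.Helper67.BW.rnd Pool.Agent.Helper12.BW.scv
    Pool.Agent.Helper31.BW.bdv Pool.Agent.Helper9.BW.scu
    (Pool.Agent.Helper16.BW.scp Pool.Agent.Helper9.BW.scu) Pool.Agent.Helper95.BW.pos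
  have fam : FamStmt := Pool.Agent.Helper61.BW.fam Pool.Agent.Helper19.BW.abv
  have pro : ProStmt := Pool.Agent.Helper92.BW.pro
  have pri : PriStmt := Pool.Agent.Helper73.BW.pri pro
  have pfo : PfoStmt := Pool.Agent.Helper82.BW.pfo
  have pfr : PfrStmt := Pool.Agent.Helper17.BW.pfr
  have pta : PtaStmt := Pool.Agent.Helper93.BW.pta pfo pfr
  have pma : PmaStmt := Pool.Agent.Helper85.BW.pma pro pri pfo pfr pta
  exact boundedWidth_of rnd fam vfi pma Pool.Agent.Helper34.FR.trr
    Pool.Agent.Helper13.FR.val_ofRQ k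

end Pool.Agent.Helper92.BW
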