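import Pool.Agent.Helper92.BW.GoalsB
import Pool.Agent.Helper92.BW.GoalsC

/-!
# Volumes of polytopes of bounded elimination width: assembly
-/

namespace Pool.Agent.Helper92.BW

open MeasureTheory Pool.Agent.Helper81.CC Pool.Agent.Bin Pool.Agent.Helper92.VP
open Pool.Agent.Helper92.FR hiding DepStmt

theorem boundedWidth_of (hrnd : RndStmt) (hfam : FamStmt) (hvfi : VfiStmt) (hpma : PmaStmt)
    (htrr : TrrStmt) (hofr : ∀ x : RQ, (ofRQ x).val = x.val) (k : ℕ) : BoundedWidth k := by
  refine ⟨mainW k, (hpma k).computable, ?_⟩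
  intro S par q hb hq he
  rcases Nat.eq_zero_or_pos S.1 with h0 | h0
  · obtain ⟨n, R⟩ := S
    simp only at h0
    subst h0
    have hs : ∀ (r : List RQ × RQ) (x : Fin 0 → ℝ), ∑ j : Fin 0, coef r j * x j = 0 := by
      intro r x
      simp
    have hval : ∀ r : List RQ × RQ, (Qn.le (ofRQ r.2) Qn.zero = true ↔ r.2.val ≤ 0) := by
      intro r
      rw [Qn.le_iff, hofr, Qn.val_zero]
    by_cases hA : R.any (fun r => !(Qn.le (ofRQ r.2) Qn.zero)) = true
    · have hm : mainW k (((0, R), par), q) = (false, ⟨0⟩, ⟨1⟩) := by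
        simp [mainW, hA]
      have hempty : sol (0, R) = ∅ := by
        rw [List.any_eq_true] at hA
        obtain ⟨r, hr, h1⟩ := hA
        ext x
        simp only [sol, Set.mem_setOf_eq, Set.mem_empty_iff_false, iff_false, not_forall]
        refine ⟨r, hr, ?_⟩
        have h2 : ¬ (r.2.val ≤ 0) := by
          rw [← hval]
          simpa using h1
        simp only [hs]
        exact h2
      rw [hm, hempty]
      simp [RQ.val, vol]
    · have hm : mainW k (((0, R), par), q) = (false, ⟨1⟩, ⟨1⟩) := by
        simp [mainW, hA]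
      have huniv : sol (0, R) = Set.univ := by
        ext x
        simp only [sol, Set.mem_setOf_eq, Set.mem_univ, iff_true]
        intro r hr
        simp only [hs]
        rw [← hval]
        by_contra h3
        exact hA (List.any_eq_true.mpr ⟨r, hr, by simpa using h3⟩)
      have hv : vol (sol (0, R)) = 1 := by
        rw [huniv]
        unfold vol
        rw [volume_pi, Measure.pi_of_empty]
        simp
      rw [hm, hv]
      simp [RQ.val]
  · have hne : S.1 ≠ 0 := by omega
    obtain ⟨r1, r2⟩ := hrnd S hb h0
    by_cases hA : (rowsQ S).any (bad S.1 (stI S)) = true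
    · have hm : mainW k ((S, par), q) = (false, ⟨0⟩, ⟨1⟩) := by
        simp only [mainW, if_neg hne, hA, if_true]
      rw [hm, r1 hA]
      simp [RQ.val]
    · have hA' : (rowsQ S).any (bad S.1 (stI S)) = false := by simpa using hA
      obtain ⟨r3, r4⟩ := r2 hA'
      have hm : mainW k ((S, par), q) = toRQ (volQ k S.1 (gI k S q)
          (crows S.1 (stI S) (rowsQ S)) (uverts S.1 (stI S)) par) := by
        simp only [mainW, if_neg hne, hA', Bool.false_eq_true, if_false]
      rw [hm, htrr, r4]
      exact hvfi S.1 k q par _ _ h0 hq r3 (hfam k S par _ he)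

end Pool.Agent.Helper92.BW
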