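import Pool.Agent.Helper92.BW.GoalsA
import Pool.Agent.Helper92.BW.Alg

/-!
# Volumes of polytopes of bounded elimination width: goals, part B (values of the algorithm)

All goals are independent: any goal may assume any other goal (also of part A) as a hypothesis.
Values: `Qn.val_add`, `Qn.val_mul`, `Qn.val_inv`, `Qn.le_iff`, `Qn.fl_eq`, … in
`Pool.Agent.Helper92.FR.Num`; `lv n x` is the vector of the values of a list `x`; `dot` is the scalar
product (`Pool.Agent.Helper24.FR.val0`, first part, or directly).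
-/

namespace Pool.Agent.Helper92.BW

open MeasureTheory Pool.Agent.Helper81.CC Pool.Agent.Bin Pool.Agent.Helper92.VP
open Pool.Agent.Helper92.FR hiding DepStmt

noncomputable section

/-! ### The rounding -/

/-- SCV. The values of one step (compare `Pool/Agent/Helper60/FR/CPV.lean`). Proof: unfold; `pmax` is
an index with the largest weight (a nonempty finite list has a maximum); the largest weight `φ i0` is
`≥ 0` (the sum is), so `u = us φ i0 i ≥ 1 - μ ≥ 7/8`, `sfac0 = ⌊Q/u⌋ + 1`, `Q = 16(d+1)^3 ≥ 128`, so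
`Q/u ≤ sfac0 ≤ Q/u + 1 ≤ 2 Q`, and the cap is not reached; `ν i = sfac / Q`. (For `i = pmax` any `ν i`
will do.) -/
def ScvStmt : Prop := ∀ (d : ℕ), 1 ≤ d → ∀ (st : Cst) (ph : List Qn), CWf d st →
  ph.length = d + 1 → 0 ≤ ∑ i, lv (d + 1) ph i →
  CWf d (scut d st ph) ∧ CutS (VV d st) (VV d (scut d st ph)) (lv (d + 1) ph)

/-- BDV. The values of the rows at the vertices. Proof: unfold. -/
def BdvStmt : Prop := ∀ (d : ℕ), 1 ≤ d → ∀ (st : Cst) (r : List Qn × Qn), CWf d st →
  r.1.length = d →
  (∀ i : Fin (d + 1), (phi st r i).val = ip (lv d r.1) (VV d st i) - r.2.val) ∧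
  (phm d st r).val = (∑ i, (ip (lv d r.1) (VV d st i) - r.2.val)) / ((d : ℝ) + 1) ∧
  (bad d st r = true ↔ ∃ i : Fin (d + 1), ((qc d : ℝ) - 1) * (phm d st r).val +
    (ip (lv d r.1) (VV d st i) - r.2.val) < 0) ∧
  (phs d st r).length = d + 1 ∧
  ∀ i, lv (d + 1) (phs d st r) i =
    ip (lv d r.1) (VV d st i) - r.2.val - min (phm d st r).val 0

/-- POS. A polyhedron of positive volume contains a cube of moderate size. Proof (compare
`Pool/Agent/Helper82/FR/BIG.lean`, which contains the clearing of denominators, extreme points and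
Cramer's rule). Let `n = S.1`, `L = ssize S`. Consider the polyhedron `K` of all `(x, t)` with
`a r · x - ‖a r‖₁ t ≥ b r` for all rows with `a r ≠ 0`, and `0 ≤ t ≤ 1`; it is compact (`x ∈ sol S`)
and contains a point with `t > 0` (`sol S` has an interior point: a convex set of positive volume).
So `t` attains its maximum over `K` at an extreme point, where `n + 1` linearly independent
constraints are tight; by Cramer's rule (rows multiplied by their denominators) `t` is an integer
divided by the determinant of an integer matrix, `|det| ≤ (n+1)! ∏ (largest entries) ≤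
(n+1)^(n+1) · (n+1)^(n+1) · 2^L ≤ 2^(20 (L+1)^3)`. So `t ≥ 2^(-20 (L+1)^3)`, and `x + [-t,t]^n` is in
`sol S` (the rows with `a r = 0` hold since `sol S` is not empty). Alternatively: take the centroid
of `n + 1` affinely independent extreme points of `sol S`. -/
def PosStmt : Prop := ∀ S : Sys, Bornology.IsBounded (sol S) → 0 < vol (sol S) →
  ∃ y : Fin S.1 → ℝ, ∀ x : Fin S.1 → ℝ,
    (∀ l, y l ≤ x l ∧ x l ≤ y l + 1 / 2 ^ (20 * (ssize S + 1) ^ 3)) → x ∈ sol S

/-- A rounded centred system: the rows `a · u ≥ - s` and the vertices `U` of a simplex with centroid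
zero which contains the polyhedron, and whose `qc n`-th part is contained in it. -/
structure Rnd (n : ℕ) (cr : List (List Qn × Qn)) (U : List (List Qn)) : Prop where
  lr : ∀ r ∈ cr, r.1.length = n
  lu : U.length = n + 1
  lv' : ∀ u ∈ U, u.length = n
  s0 : ∀ r ∈ cr, 0 ≤ r.2.val
  hull : ∀ x : Fin n → ℝ, (∀ r ∈ cr, -r.2.val ≤ ip (lv n r.1) x) →
    ∃ b : Fin (n + 1) → ℝ, (∀ i, 0 ≤ b i) ∧ ∑ i, b i = 1 ∧
      ∀ l, x l = ∑ i : Fin (n + 1), b i * lv n (U.getD i []) l
  inner : ∀ i : Fin (n + 1), ∀ r ∈ cr,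
    -r.2.val ≤ ip (lv n r.1) (lv n (U.getD i [])) / qc n
  cent : ∀ l, ∑ i : Fin (n + 1), lv n (U.getD i []) l = 0
  span : ∀ w : Fin n → ℝ, (∀ i : Fin (n + 1), ip w (lv n (U.getD i [])) = 0) → w = 0

/-- RND. The rounding. Proof (may assume SCV, BDV, SCU, SCP, POS and
`Pool.Agent.Helper82.FR.big : BigStmt`, `TrrStmt`-like facts on `ofRQ`). Let `n = S.1`, `st k` be the
state after `k` steps; by induction `CWf n (st k)`, `det (hom (VV (st k))) ≠ 0` (SCU, part 3), and
every `x ∈ sol S` is in the simplex: at first by `BigStmt`, and then by SCU, part 1, with the weights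
of the row `r`: `∑ b i φ' i ≥ ∑ b i φ i = a r · x - b r ≥ 0`, where `φ' = φ - min m 0`, `m` the mean of
`φ` (BDV); `∑ φ' = (n+1) max m 0 ≥ 0`. If some state before the last one is not bad then all later
ones are equal to it. First part: let the last state be bad, so all are, and let `vol (sol S) > 0`.
Each step is as in SCP: `max φ' > 0` (otherwise all `φ' = 0`, `φ i = m ≤ 0` for all `i`, and bad gives
`m < 0`, so `a r · x - b r < 0` on the whole simplex, `sol S` is empty); if `m ≤ 0` then `∑ φ' = 0`;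
if `m > 0` then bad gives some `φ i1 < -(qc n - 1) m`, so `n max φ ≥ ∑_{i≠i1} φ i > (qc n - 1) m`,
`max φ > 4 (n+1) m = 4 ∑ φ` (`qc n - 1 ≥ 4n(n+1)`). By POS and SCP (`B = 2^(4L²)`,
`ρ = 2^(-20(L+1)^3)`, `T = 500 (L+1)^6`, `n ≤ L`) a point of `sol S` is not in the last simplex, a
contradiction. Second part: not bad says `(qc n - 1) m r + φ r i ≥ 0` for all rows and vertices, so
`m r ≥ 0` (sum over `i`) which is `s r`, and `-m r ≤ (φ r i - m r)/qc n = a r · U i / qc n`. The hull:
`x + z ∈ sol S` (`z` the centroid). The volume: translation. `span`: `det (hom V) ≠ 0`. -/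
def RndStmt : Prop := ∀ S : Sys, Bornology.IsBounded (sol S) → 1 ≤ S.1 →
  ((rowsQ S).any (bad S.1 (stI S)) = true → vol (sol S) = 0) ∧
  ((rowsQ S).any (bad S.1 (stI S)) = false →
    Rnd S.1 (crows S.1 (stI S) (rowsQ S)) (uverts S.1 (stI S)) ∧
    vol (sol S) = (volume {u : Fin S.1 → ℝ | ∀ r ∈ crows S.1 (stI S) (rowsQ S),
      -r.2.val ≤ ip (lv S.1 r.1) u}).toReal)

/-! ### The forest -/

/-- ABV. The ancestors and the first variable of a row. Proof: as long as the value is less than `n`,
`clm` and the iterates of `par.getD x x` agree (capped at `n`), both increase strictly, so at most `n`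
steps are needed; `par.getD x x = x` for `x ≥ n`. -/
def AbvStmt : Prop := (∀ (n : ℕ) (par : List ℕ), par.length = n → (∀ i < n, i < par.getD i i) →
    ∀ i ≤ n, ∀ j < n, (abvB n par i j = true ↔ Above par i j)) ∧
  ∀ (n : ℕ) (r : List Qn × Qn), lowr n r ≤ n ∧
    (lowr n r < n → (r.1.getD (lowr n r) Qn.zero).val ≠ 0) ∧
    ∀ j < lowr n r, (r.1.getD j Qn.zero).val = 0

/-- The data of an elimination forest for the centred rows. -/
structure Wd (n k : ℕ) (par : List ℕ) (cr : List (List Qn × Qn)) : Prop where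
  len : par.length = n
  inc : ∀ i < n, i < par.getD i i
  chain : ∀ r ∈ cr, ∀ j < n, (r.1.getD j Qn.zero).val ≠ 0 →
    lowr n r < n ∧ Above par (lowr n r) j
  len' : ∀ v < n, ∀ f ∈ fam n par cr v, f.length = n ∧ ∀ j ≤ v, (f.getD j Qn.zero).val = 0
  rank : ∀ v < n, Set.finrank ℝ {w | ∃ f ∈ fam n par cr v, w = lv n f} ≤ k

/-- FAM. The families. Proof (may assume ABV, `TrrStmt`-like facts: the value of `rco r j` is
`coef r j`). The rows of `crows … (rowsQ S)` have the coefficients of the rows of `S`; the values of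
`fam` are in `cutRows S par v` (`i = lowr`), so the rank is at most `k` (`Submodule.span_mono`,
finite dimension). `chain`: `j` is in the row, so `lowr ≤ j`; if `lowr < j` use the third part of
`Elim`. -/
def FamStmt : Prop := ∀ (k : ℕ) (S : Sys) (par : List ℕ) (st : Cst), Elim k S par →
  Wd S.1 k par (crows S.1 st (rowsQ S))

/-! ### Frames -/

/-- The values of the functional `j` of a frame. -/
def gv (n : ℕ) (F : Frm) (j : ℕ) : Fin n → ℝ := lv n (gE F j)

/-- The values of the point `j` of a frame. -/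
def yv (n : ℕ) (F : Frm) (j : ℕ) : Fin n → ℝ := lv n (yE F j)

/-- A frame with `m` members. -/
structure Tri (n m : ℕ) (F : Frm) : Prop where
  len : F.length = m
  lg : ∀ j < m, (gE F j).length = n
  ly : ∀ j < m, (yE F j).length = n
  diag : ∀ j < m, ip (gv n F j) (yv n F j) = 1 ∨ (gv n F j = 0 ∧ yv n F j = 0)
  low : ∀ j < m, ∀ l < j, ip (gv n F j) (yv n F l) = 0

/-- FRV. The frames. Proof. By induction on `j ≤ k` for `frm n Φ U j`: the residual
`f' = resk j F f` has the values `f - ∑_(l<j) c l g l`, it vanishes at all `y l`, `l < j` (step `l`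
makes the value at `y l` zero since `g l · y l = 1`, and later steps do not change it; if `g l = 0`,
`y l = 0` there is nothing to do). `amx` is an index where `|g · U i|` is the largest; if this maximum
is not zero then `prn` gives `g = f'/|x|`, `y = (x/|x|) U i`, `x = f' · U i`. If no `f ∈ Φ` has a
nonzero maximum, the member is `(0, 0)`. For the own functional: all `f ∈ Φ`, so all `g l`, vanish at
`v` (and before), so the residual of the unit vector has the coordinate `1` at `v`; it is not zero, so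
its maximum is not zero (`span`). `ker`: `g j` is a linear combination of members of `Φ`. -/
def FrvStmt : Prop := ∀ (n k v : ℕ) (U Φ : List (List Qn)), v < n → U.length = n + 1 →
  (∀ u ∈ U, u.length = n) →
  (∀ w : Fin n → ℝ, (∀ i : Fin (n + 1), ip w (lv n (U.getD i [])) = 0) → w = 0) →
  (∀ f ∈ Φ, f.length = n ∧ ∀ j ≤ v, (f.getD j Qn.zero).val = 0) →
  Tri n (k + 1) (fr n k U Φ v) ∧
  (∀ j ≤ k, ∀ i : Fin (n + 1), |ip (gv n (fr n k U Φ v) j) (lv n (U.getD i []))| ≤ 1) ∧
  (∀ j ≤ k, yv n (fr n k U Φ v) j = 0 ∨ ∃ i : Fin (n + 1),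
    yv n (fr n k U Φ v) j = lv n (U.getD i []) ∨ yv n (fr n k U Φ v) j = -lv n (U.getD i [])) ∧
  (∀ j < k, ∀ w : Fin n → ℝ, (∀ f ∈ Φ, ip (lv n f) w = 0) → ip (gv n (fr n k U Φ v) j) w = 0) ∧
  0 < (msc n k U Φ v).val ∧ gv n (fr n k U Φ v) k ≠ 0 ∧
  ∃ β : Fin k → ℝ, ∀ x : Fin n, (msc n k U Φ v).val * gv n (fr n k U Φ v) k x =
    (if x.val = v then 1 else 0) - ∑ j, β j * gv n (fr n k U Φ v) j x

/-- FRK. If the rank of `Φ` is at most `k` then `k` members of the frame span it. Proof (as FRV). If
for some `j < k` no `f ∈ Φ` has a nonzero residual maximum, then all residuals `resk j` are zero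
(`span`), so all `f ∈ Φ` are linear combinations of `g 0, …, g (j-1)`. Otherwise all `g j` (`j < k`)
are nonzero, `g j · y j = 1`, `g j · y l = 0` for `l < j`, so they are linearly independent, and they
are in the span of `Φ`, which has dimension at most `k`; so they span it. -/
def FrkStmt : Prop := ∀ (n k v : ℕ) (U Φ : List (List Qn)), v < n → U.length = n + 1 →
  (∀ u ∈ U, u.length = n) →
  (∀ w : Fin n → ℝ, (∀ i : Fin (n + 1), ip w (lv n (U.getD i [])) = 0) → w = 0) →
  (∀ f ∈ Φ, f.length = n) → Set.finrank ℝ {w | ∃ f ∈ Φ, w = lv n f} ≤ k →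
  ∀ w : Fin n → ℝ, (∀ j < k, ip (gv n (fr n k U Φ v) j) w = 0) → ∀ f ∈ Φ, ip (lv n f) w = 0

/-- The coordinate `j` of the grid point `e`. -/
def ctr (G e j : ℕ) : ℝ := (gq G (e / (2 * G + 1) ^ j % (2 * G + 1))).val

/-- BKV. The grid points. Proof: by induction on `m` (from the last coordinate down), the step `j`
makes the value of `g j` right and does not change the values of `g j'`, `j' > j`
(`g j' · y j = 0`). -/
def BkvStmt : Prop := ∀ (n m G e : ℕ) (F : Frm) (x : List Qn), Tri n m F → x.length = n →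
  (back m F G e x).length = n ∧
  ∀ j < m, gv n F j ≠ 0 → ip (gv n F j) (lv n (back m F G e x)) = ctr G e j

/-- CIX. The cells. Proof: by induction on `m`; if `|y| ≤ 1` then some `d ≤ 2G` has
`|y - (d - G)/G| ≤ 1/(2G)`; the digits of `e + d (2G+1)^j`, `e < (2G+1)^j`, `d < 2G+1`, are those of
`e` and `d`. Last part: the digits of `ezero k G` are all `G`. -/
def CixStmt : Prop := (∀ (n m G : ℕ) (F : Frm) (x : List Qn), 1 ≤ G → x.length = n →
    (∀ j < m, (gE F j).length = n) →
    (∀ e, cidx m F G x = some e → e < (2 * G + 1) ^ m ∧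
      ∀ j < m, |ip (gv n F j) (lv n x) - ctr G e j| ≤ 1 / (2 * G)) ∧
    (cidx m F G x = none → ∃ j < m, 1 < |ip (gv n F j) (lv n x)|)) ∧
  ∀ k G : ℕ, ezero k G < (2 * G + 1) ^ k ∧ ∀ j < k, ctr G (ezero k G) j = 0

/-! ### The dynamic program -/

/-- The rows with a variable. -/
abbrev Ix (n : ℕ) (cr : List (List Qn × Qn)) : Type := {r : List Qn × Qn // r ∈ cr ∧ lowr n r < n}

/-- Their first variables. -/
def lowS (n : ℕ) (cr : List (List Qn × Qn)) (r : Ix n cr) : Fin n := ⟨lowr n r.1, r.2.2⟩

/-- Their coefficients. -/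
def aS (n : ℕ) (cr : List (List Qn × Qn)) (r : Ix n cr) : Fin n → ℝ := lv n r.1.1

/-- Their slacks. -/
def sS (n : ℕ) (cr : List (List Qn × Qn)) (r : Ix n cr) : ℝ := r.1.2.val

/-- The frame of `v`. -/
def frS (n k : ℕ) (par : List ℕ) (cr : List (List Qn × Qn)) (U : List (List Qn)) (v : ℕ) : Frm :=
  fr n k U (fam n par cr v) v

/-- The cells. -/
abbrev Cell (k G : ℕ) : Type := Fin ((2 * G + 1) ^ k)

/-- Their centres. -/
def ctrS (k G : ℕ) (e : Cell k G) (l : Fin k) : ℝ := ctr G e.val l.val

/-- The functionals. -/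
def gS (n k : ℕ) (par : List ℕ) (cr : List (List Qn × Qn)) (U : List (List Qn)) (v : Fin n)
    (l : Fin k) : Fin n → ℝ := gv n (frS n k par cr U v) l

/-- The own functionals. -/
def oS (n k : ℕ) (par : List ℕ) (cr : List (List Qn × Qn)) (U : List (List Qn)) (v : Fin n) :
    Fin n → ℝ := gv n (frS n k par cr U v) k

/-- The scales. -/
def mS (n k : ℕ) (par : List ℕ) (cr : List (List Qn × Qn)) (U : List (List Qn)) (v : Fin n) : ℝ :=
  (msc n k U (fam n par cr v) v).val

/-- The grid points. -/
def xS (n k G : ℕ) (par : List ℕ) (cr : List (List Qn × Qn)) (U : List (List Qn)) (v : Fin n)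
    (e : Cell k G) (i : ℕ) : Fin n → ℝ := lv n (gpt k n G (frS n k par cr U v) e i)

/-- The tables. -/
def tabS (n k G : ℕ) (par : List ℕ) (cr : List (List Qn × Qn)) (U : List (List Qn)) :
    List (List BN) :=
  tabs k n G cr ((List.range n).map fun v => frS n k par cr U v) par

/-- Their values. -/
def nS (n k G : ℕ) (par : List ℕ) (cr : List (List Qn × Qn)) (U : List (List Qn)) (v : Fin n)
    (e : Cell k G) : ℝ :=
  ((((tabS n k G par cr U).getD v []).getD e ⟨0⟩).val : ℝ)

/-- FRA. The frames of the algorithm have all properties needed. Proof (may assume FRV, FRK, BKV, TRI,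
ABV). Write `Φ v = fam n par cr v`. `g1`: `ker` of FRV with `w` a unit vector (all `f ∈ Φ v` vanish up
to `v`). `o1`, `m1`: last part of FRV. `g2`: FRK: `f ∈ Φ v` for the restriction `f` of the row `r` to
the variables after `v` (`abvB` by ABV), and `ip (lv n f) w` is the sum. `g3`: last part of FRV
(`M ip (o v) w = w v - ∑ β ip (g j) w`). `g4`: by `ker` of FRV for `c` it is enough that
`ip (lv n f) w = 0` for the restriction `f` of a row `r` with `Abv (low r) c` to the variables after
`c`; the variables `j > c` of this row are above `low r`, so above `par c = v`: the sum is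
`a r v * w v` plus the sum over `j > v`, both zero (`g3`, `g2`). `g5`: `u` is in the hull of the `U i`
(`hull`; the rows without variables are satisfied since `s ≥ 0`), where all functionals are at most
`1` in absolute value. `g6`: TRI for the `k + 1` functionals with `τ j = D ip (g j) w`,
`β = D/(2G) = 1/(2^(k+2) n qc n)`, gives `W = ∑ c l y l` with `∑ |c l| ≤ 1/(2 n qc n)`, and
`± U i / (n qc n)` satisfies all rows (`inner`, `cent`: `-U i` is the sum of the others), so `W` does.
`x1`: BKV with the digits of `e + i (2G+1)^k` (`e < (2G+1)^k`, `i < 2G+1`); if `g v l = 0` then the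
premise gives `|ctr e l| ≤ 1/(2G)`, so `ctr e l = 0`. -/
def FraStmt : Prop := ∀ (n k : ℕ) (par : List ℕ) (cr : List (List Qn × Qn)) (U : List (List Qn))
  (G D : ℕ), 1 ≤ n → 1 ≤ D → G = 2 ^ (k + 1) * n * qc n * D → Rnd n cr U → Wd n k par cr →
  Chain (fun x => par.getD x x) (lowS n cr) (aS n cr) ∧
  Fra (fun x => par.getD x x) (lowS n cr) (aS n cr) (sS n cr) G D (ctrS k G) (gS n k par cr U)
    (oS n k par cr U) (mS n k par cr U) (xS n k G par cr U)

/-- TBV. The tables of the algorithm. Proof (may assume CIX, FRV, BKV). The table `v` of `tabs` is computed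
from the first `v` tables (`tabs` of `v + 1` steps extends `tabs` of `v` steps), and `ent` only uses
the tables `c < v` and the frames; the factors of the product over `c < v` are `1` if `par c ≠ v`, so
it is the product over the children; `cidx` by CIX (`some e'`: `ch = N c e'`; `none`: `ch = 0`). The
test is `∀ r ∈ cr, lowr r = v → - s ≤ a · x`. The last part: `rootp`, and `ezero` by CIX. -/
def TbvStmt : Prop := ∀ (n k : ℕ) (par : List ℕ) (cr : List (List Qn × Qn)) (U : List (List Qn))
  (G : ℕ), 1 ≤ n → 1 ≤ G → Rnd n cr U → Wd n k par cr →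
  IsTab (fun x => par.getD x x) (lowS n cr) (aS n cr) (sS n cr) G (ctrS k G) (gS n k par cr U)
    (xS n k G par cr U) (nS n k G par cr U) ∧
  ∀ e0 : Cell k G, e0.val = ezero k G →
    ((rootp k n G par (tabS n k G par cr U)).val : ℝ) =
      ∏ c : Rt (fun x => par.getD x x) n, nS n k G par cr U c.1 e0

/-- VFI. The volume. Proof (may assume MNA, FRA, TBV, CIX). The value of `volQ` is
`rootp * ∏ v, M v / G`. MNA with the index type `Ix n cr` (finite), `e0 = ezero k G`; the set
`PS (aS) (sS) 1` is the set of all rows (a row with `lowr = n` has the coefficients zero and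
`s ≥ 0`); its volume is finite, as it is contained in the hull. With `D = 4 n^2 q`:
`(1 + n/D)^n = (1 + 1/(4nq))^n ≤ e^(1/(4q)) ≤ 1 + 1/q` and `(1 - n/D)^n ≥ 1 - 1/(4q)`
(Bernoulli). -/
def VfiStmt : Prop := ∀ (n k q : ℕ) (par : List ℕ) (cr : List (List Qn × Qn))
  (U : List (List Qn)), 1 ≤ n → 1 ≤ q → Rnd n cr U → Wd n k par cr →
  |(volQ k n (2 ^ (k + 1) * n * qc n * (4 * n ^ 2 * q)) cr U par).val -
      (volume {u : Fin n → ℝ | ∀ r ∈ cr, -r.2.val ≤ ip (lv n r.1) u}).toReal| ≤
    (volume {u : Fin n → ℝ | ∀ r ∈ cr, -r.2.val ≤ ip (lv n r.1) u}).toReal / q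

end

end Pool.Agent.Helper92.BW
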