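import Mathlib

/-!
# Volumes of polytopes of bounded elimination width: real definitions

`par` gives the parents of a forest on `{0, …, n-1}` (`i < par i`, a root if `n ≤ par i`). The
polyhedron is `{u : ∀ r, a r · u ≥ - s r}`, and `low r` is a variable such that all variables of the
row `r` are above it.
-/

namespace Pool.Agent.Helper92.BW

open MeasureTheory
open scoped ENNReal

noncomputable section

/-- `j` is equal to `i` or an ancestor of `i`. -/
def Abv (par : ℕ → ℕ) (i j : ℕ) : Prop := ∃ t : ℕ, par^[t] i = j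

variable {n : ℕ} {ι : Type}

/-- The scalar product. -/
def ip (x y : Fin n → ℝ) : ℝ := ∑ j, x j * y j

/-- A forest, and all variables of the row `r` are above `low r`. -/
def Chain (par : ℕ → ℕ) (low : ι → Fin n) (a : ι → Fin n → ℝ) : Prop :=
  (∀ i, i ≤ par i) ∧ (∀ i < n, i < par i) ∧ ∀ r j, a r j ≠ 0 → Abv par (low r) j

/-- The polyhedron, scaled by `τ`. -/
def PS (a : ι → Fin n → ℝ) (s : ι → ℝ) (τ : ℝ) : Set (Fin n → ℝ) :=
  {u | ∀ r, -(τ * s r) ≤ ip (a r) u}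

open Classical in
/-- The indicator of a scaled row. -/
def ind (a : ι → Fin n → ℝ) (s : ι → ℝ) (τ : ℝ) (r : ι) (u : Fin n → ℝ) : ℝ≥0∞ :=
  if -(τ * s r) ≤ ip (a r) u then 1 else 0

/-- The children of `v`. -/
abbrev Ch (par : ℕ → ℕ) (v : Fin n) : Type := {c : Fin n // c < v ∧ par c = v}

/-- The roots. -/
abbrev Rt (par : ℕ → ℕ) (n : ℕ) : Type := {c : Fin n // n ≤ par c}

/-- The message of `v`: the volume of the set of all values of the variables below `v` (and of `v`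
itself) which satisfy all rows that involve one of these variables, given the values `u` of the
other variables. -/
def msg [Fintype ι] (par : ℕ → ℕ) (low : ι → Fin n) (a : ι → Fin n → ℝ) (s : ι → ℝ) (τ : ℝ)
    (v : Fin n) (u : Fin n → ℝ) : ℝ≥0∞ :=
  ∫⁻ t : ℝ, (∏ r ∈ Finset.univ.filter (fun r => low r = v), ind a s τ r (Function.update u v t)) *
    ∏ c : Ch par v, msg par low a s τ c.1 (Function.update u v t)
termination_by v.val
decreasing_by exact c.2.1

/-- The equation of the messages. -/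
theorem msg_eq [Fintype ι] (par : ℕ → ℕ) (low : ι → Fin n) (a : ι → Fin n → ℝ) (s : ι → ℝ) (τ : ℝ)
    (v : Fin n) (u : Fin n → ℝ) : msg par low a s τ v u =
  ∫⁻ t : ℝ, (∏ r ∈ Finset.univ.filter (fun r => low r = v), ind a s τ r (Function.update u v t)) *
    ∏ c : Ch par v, msg par low a s τ c.1 (Function.update u v t) := by
  rw [msg]

/-- The scale of the table of `v`: the product of the numbers `M w / G` over all `w` below `v`. -/
def scT (par : ℕ → ℕ) (G : ℕ) (M : Fin n → ℝ) (v : Fin n) : ℝ :=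
  M v / G * ∏ c : Ch par v, scT par G M c.1
termination_by v.val
decreasing_by exact c.2.1

/-- The equation of the scales. -/
theorem scT_eq (par : ℕ → ℕ) (G : ℕ) (M : Fin n → ℝ) (v : Fin n) :
    scT par G M v = M v / G * ∏ c : Ch par v, scT par G M c.1 := by
  rw [scT]

/-- Frames. For each variable `v` there are `k` functionals `g v l` of the variables after `v`, an
own functional `o v`, and for each cell `e` (with the centre `ctr e`) and each `i` a point
`X v e i`. -/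
structure Fra {k : ℕ} {E : Type} (par : ℕ → ℕ) (low : ι → Fin n) (a : ι → Fin n → ℝ) (s : ι → ℝ)
    (G D : ℕ) (ctr : E → Fin k → ℝ) (g : Fin n → Fin k → Fin n → ℝ) (o : Fin n → Fin n → ℝ)
    (M : Fin n → ℝ) (X : Fin n → E → ℕ → Fin n → ℝ) : Prop where
  g1 : ∀ v l j, g v l j ≠ 0 → v < j
  o1 : ∀ v j, o v j ≠ 0 → v ≤ j
  m1 : ∀ v, 0 < M v ∧ M v * o v v = 1
  g2 : ∀ v w, (∀ l, ip (g v l) w = 0) → ∀ r, Abv par (low r) v →
    ∑ j, (if v < j then a r j * w j else 0) = 0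
  g3 : ∀ v w, (∀ l, ip (g v l) w = 0) → ip (o v) w = 0 → w v = 0
  g4 : ∀ v w, (∀ l, ip (g v l) w = 0) → ip (o v) w = 0 → ∀ c : Fin n, par c = v →
    ∀ l, ip (g c l) w = 0
  g5 : ∀ v, ∀ u ∈ PS a s 1, (∀ l, |ip (g v l) u| ≤ 1) ∧ |ip (o v) u| ≤ 1
  g6 : ∀ v w, (∀ l, |ip (g v l) w| ≤ 1 / (2 * G)) → |ip (o v) w| ≤ 1 / (2 * G) →
    ∃ W ∈ PS a s 1, (∀ l, (D : ℝ) * ip (g v l) w = ip (g v l) W) ∧
      (D : ℝ) * ip (o v) w = ip (o v) W
  x1 : ∀ v e, ∀ i < 2 * G + 1, (∃ u, ∀ l, |ip (g v l) u - ctr e l| ≤ 1 / (2 * G)) →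
    (∀ l, ip (g v l) (X v e i) = ctr e l) ∧ ip (o v) (X v e i) = ((i : ℝ) - G) / G

open Classical in
/-- The tables `N v e` of the dynamic program. -/
def IsTab {k : ℕ} {E : Type} (par : ℕ → ℕ) (low : ι → Fin n) (a : ι → Fin n → ℝ) (s : ι → ℝ)
    (G : ℕ) (ctr : E → Fin k → ℝ) (g : Fin n → Fin k → Fin n → ℝ)
    (X : Fin n → E → ℕ → Fin n → ℝ) (N : Fin n → E → ℝ) : Prop :=
  ∀ v e, ∃ ch : ℕ → Ch par v → ℝ,
    (∀ i < 2 * G + 1, ∀ c, (∃ e' : E, (∀ l, |ip (g c.1 l) (X v e i) - ctr e' l| ≤ 1 / (2 * G)) ∧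
      ch i c = N c.1 e') ∨ (ch i c = 0 ∧ ∃ l, 1 < |ip (g c.1 l) (X v e i)|)) ∧
    N v e = ∑ i ∈ Finset.range (2 * G + 1),
      if ∀ r, low r = v → -s r ≤ ip (a r) (X v e i) then ∏ c, ch i c else 0

end

end Pool.Agent.Helper92.BW
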